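import Pool.Agent.E8helper2.ZB.Stm8

/-!
# Vanishing of the cohomology above the dimension (`S_VAN` given `S_BOX`)
-/

set_option autoImplicit false

open Module Set Pool.Agent.Helper438.Sc

namespace Pool.Agent.E8helper95.ZB

open Pool.Agent.E8helper2.ZB

/-- open boxes -/
def bx {m : ℕ} (a b : Fin m → ℝ) : Set (Fin m → ℝ) := {x | ∀ j, a j < x j ∧ x j < b j}

theorem isOpen_bx {m : ℕ} (a b : Fin m → ℝ) : IsOpen (bx a b) := by
  have : bx a b = ⋂ j, {x : Fin m → ℝ | a j < x j ∧ x j < b j} := by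
    ext x
    simp [bx]
  rw [this]
  apply isOpen_iInter_of_finite
  intro j
  exact (isOpen_lt continuous_const (continuous_apply j)).inter
    (isOpen_lt (continuous_apply j) continuous_const)

theorem exists_bx {m : ℕ} {U : Set (Fin m → ℝ)} (hU : IsOpen U) {x : Fin m → ℝ} (hx : x ∈ U) :
    ∃ a b, x ∈ bx a b ∧ bx a b ⊆ U := by
  obtain ⟨ε, hε, h⟩ := Metric.isOpen_iff.1 hU x hx
  refine ⟨fun j => x j - ε, fun j => x j + ε, fun j => ⟨by linarith, by linarith⟩, ?_⟩
  intro y hy
  apply h
  rw [Metric.mem_ball, dist_pi_lt_iff hε]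
  intro j
  rw [Real.dist_eq, abs_lt]
  have := hy j
  constructor <;> linarith [this.1, this.2]

theorem RV_open (h : S_BOX) (k : Type) [Field k] {m q : ℕ} (hm : m ≤ q + 1)
    {U : Set (Fin m → ℝ)} (hU : IsOpen U) : RV k U (q + 1) := by
  let ι := {p : (Fin m → ℝ) × (Fin m → ℝ) // bx p.1 p.2 ⊆ U}
  let s : ι → Set (Fin m → ℝ) := fun p => bx p.1.1 p.1.2
  obtain ⟨T, hTc, hT⟩ := TopologicalSpace.isOpen_iUnion_countable s (fun p => isOpen_bx _ _)
  have hUs : ⋃ p, s p = U := by
    apply subset_antisymm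
    · exact iUnion_subset fun p => p.2
    · intro x hx
      obtain ⟨a, b, h1, h2⟩ := exists_bx hU hx
      exact mem_iUnion.2 ⟨⟨(a, b), h2⟩, h1⟩
  rcases T.eq_empty_or_nonempty with hTe | hne
  · have hU0 : U = ⋃ i : Fin 0, {x : Fin m → ℝ | ∀ j, (fun _ _ => (0:ℝ)) i j < x j ∧
        x j < (fun _ _ => (0:ℝ)) i j} := by
      rw [← hUs, ← hT, hTe]
      simp
    rw [hU0]
    exact h k m q 0 (fun _ _ => 0) (fun _ _ => 0) hm
  · obtain ⟨f, hf⟩ := hTc.exists_eq_range hne
    let W : ℕ → Set (Fin m → ℝ) := fun n => ⋃ i : Fin n, s (f i)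
    have hWopen : ∀ n, IsOpen (W n) := fun n => isOpen_iUnion fun i => isOpen_bx _ _
    have hWU : ∀ n, W n ⊆ U := fun n => iUnion_subset fun i => (f i).2
    refine RV_iUnion k (X := U) (fun n => Subtype.val ⁻¹' (W n))
      (fun n => (hWopen n).preimage continuous_subtype_val) ?_ ?_ q ?_
    · intro n n' hn x hx
      obtain ⟨i, hi⟩ := mem_iUnion.1 hx
      exact mem_iUnion.2 ⟨⟨i, lt_of_lt_of_le i.2 hn⟩, hi⟩
    · rintro ⟨x, hx⟩
      rw [← hUs, ← hT, hf] at hx
      simp only [mem_range, iUnion_exists, iUnion_iUnion_eq'] at hx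
      obtain ⟨i, hi⟩ := mem_iUnion.1 hx
      exact ⟨i + 1, mem_iUnion.2 ⟨⟨i, Nat.lt_succ_self i⟩, hi⟩⟩
    · intro n
      refine RV_homeo k (subHomeo U _ (W n) ?_) (q + 1) ?_
      · intro x
        constructor
        · intro hx
          exact ⟨hWU n hx, hx⟩
        · rintro ⟨h1, h2⟩
          exact h2
      · exact h k m q n (fun i => (f i).1.1) (fun i => (f i).1.2) hm

theorem RV_openE (h : S_BOX) (k : Type) [Field k] {E : Type} [NormedAddCommGroup E]
    [NormedSpace ℝ E] [FiniteDimensional ℝ E] {q : ℕ} (hm : finrank ℝ E ≤ q + 1)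
    {U : Set E} (hU : IsOpen U) : RV k U (q + 1) := by
  have hfr : finrank ℝ E = finrank ℝ (Fin (finrank ℝ E) → ℝ) := by simp
  let L : E ≃L[ℝ] (Fin (finrank ℝ E) → ℝ) := ContinuousLinearEquiv.ofFinrankEq hfr
  refine RV_homeo k (L.toHomeomorph.image U) (q + 1) ?_
  apply RV_open h k hm
  exact L.toHomeomorph.isOpenMap U hU

theorem RV_chart (h : S_BOX) (k : Type) [Field k] {E : Type} [NormedAddCommGroup E]
    [NormedSpace ℝ E] [FiniteDimensional ℝ E] {M : Type} [TopologicalSpace M]
    (e : OpenPartialHomeomorph M E) {q : ℕ} (hm : finrank ℝ E ≤ q + 1)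
    {W : Set M} (hW : IsOpen W) (hWs : W ⊆ e.source) : RV k W (q + 1) := by
  refine RV_homeo k (e.homeomorphOfImageSubsetSource hWs rfl) (q + 1) ?_
  exact RV_openE h k hm (e.isOpen_image_of_subset_source hW hWs)

theorem RV_zero_of_subsingleton (k : Type) [Field k] (X : Type) [TopologicalSpace X]
    [Subsingleton X] : RV k X 0 := by
  intro c _
  by_cases hne : Nonempty (Sing X 0)
  · obtain ⟨σ0⟩ := hne
    refine ⟨c σ0, fun σ => ?_⟩
    congr 1
    ext x
    exact Subsingleton.elim _ _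
  · exact ⟨0, fun σ => (hne ⟨σ⟩).elim⟩

theorem RV_of_isEmpty (k : Type) [Field k] (X : Type) [TopologicalSpace X]
    [IsEmpty X] (q : ℕ) : RV k X (q + 1) := by
  intro c _
  refine ⟨0, ?_⟩
  funext σ
  exact isEmptyElim (σ (vert (q + 1) 0))

theorem RV_finset (h : S_BOX) (k : Type) [Field k] {E : Type} [NormedAddCommGroup E]
    [NormedSpace ℝ E] [FiniteDimensional ℝ E] {M : Type} [TopologicalSpace M] [ChartedSpace E M]
    {q : ℕ} (hm : finrank ℝ E < q + 1) (t : Finset M) :
    RV k (⋃ x ∈ t, (chartAt E x).source : Set M) (q + 1) := by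
  classical
  induction t using Finset.induction_on with
  | empty =>
    have : (⋃ x ∈ (∅ : Finset M), (chartAt E x).source : Set M) = ∅ := by simp
    rw [this]
    exact RV_of_isEmpty k _ q
  | insert a t ha ih =>
    rw [Finset.set_biUnion_insert]
    refine RV_glue k _ _ (chartAt E a).open_source
      (isOpen_biUnion fun x _ => (chartAt E x).open_source) q ?_ ih ?_
    · exact RV_chart h k (chartAt E a) hm.le (chartAt E a).open_source subset_rfl
    · cases q with
      | zero =>
        have h0 : finrank ℝ E = 0 := by omega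
        have hE : Subsingleton E := finrank_zero_iff.1 h0
        have hs : Subsingleton
            ((chartAt E a).source ∩ ⋃ x ∈ t, (chartAt E x).source : Set M) := by
          constructor
          rintro ⟨x, hx⟩ ⟨y, hy⟩
          apply Subtype.ext
          exact (chartAt E a).injOn hx.1 hy.1 (Subsingleton.elim _ _)
        exact RV_zero_of_subsingleton k _
      | succ q =>
        exact RV_chart h k (chartAt E a) (by omega) ((chartAt E a).open_source.inter
          (isOpen_biUnion fun x _ => (chartAt E x).open_source)) inter_subset_left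

theorem van (h : S_BOX) : S_VAN := by
  intro k _ E _ _ _ M _ _ _ _ _ n hn
  obtain ⟨q, rfl⟩ : ∃ q, n = q + 1 := ⟨n - 1, by omega⟩
  obtain ⟨t, ht⟩ := CompactSpace.elim_nhds_subcover (fun x : M => (chartAt E x).source)
    (fun x => chart_source_mem_nhds E x)
  have h1 := RV_finset h k hn t
  rw [ht] at h1
  have h2 : RV k M (q + 1) := RV_homeo k (Homeomorph.Set.univ M).symm (q + 1) h1
  exact (RV_succ_iff k q).1 h2

end Pool.Agent.E8helper95.ZB
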